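import Pool.Agent.H.MP_df1cff_co.Main

set_option autoImplicit false

namespace Pool.Agent.Results.MP_df1cff_co.NotNormal

open Pool.Agent.H.MP_df1cff_co

/-- Q1 is false: a closed set of dicotic games containing `*`, with an evil kernel, such that no
evil kernel makes the pair evilly normal. -/
theorem result : ∃ A : Set Game, (∀ G ∈ A, Dicot G) ∧ Closed A ∧ star ∈ A ∧ Respects A ∧
    (∃ K, Respects K ∧ EvilKernel A K) ∧ ∀ K, EvilKernel A K → ¬ NormalCond A K :=
  main

end Pool.Agent.Results.MP_df1cff_co.NotNormal
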